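import Pool.Agent.Q46.IP.ToolsS
import Pool.Agent.Q46.SL.Mord

/-!
# Every even gap between consecutive almost primes between consecutive odd squares: logarithms and polynomials

With `η = (2 k - 1) ^ 2` and a prime `p` between `4 k - log² p` and `8 k - log² p` all the numbers considered are between `(2 k
- 1) ^ 2` and `(2 k + 1) ^ 2`. We find there, for every `k` and every even `τ ≤ κ rankin(p)`, consecutive almost primes `y = η +
x` and `y + τ` with difference exactly `τ`.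

Let `p` be a large prime, `g` a nonzero residue and `f_1, ..., f_s` polynomials modulo `p`, linearly independent together with `1`. In
all boxes above a certain size there are many exponents `x` such that ALL of `x` and the least residues of `f_1(g ^ x)`, ...,
`f_s(g ^ x)` have the property.

Here the property is, with `y = η + x`: `y` and `y + τ` have at most `R` prime factors, all larger than `M ^ κ`, while EVERY
other integer within distance `κ rankin(M)` of `y` has a prime factor `≤ log M`; `τ` is an arbitrary even integer with `|τ| ≤ κ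
rankin(M)`, `η` is an arbitrary integer, `|η| ≤ M ^ K`, and `rankin(M) = log M log₂ M log₄ M / (log₃ M) ^ 2`. (`M = p`)

Design and proof: helper46 (modules `Pool.Agent.Q46.IP.*`, `Pool.Agent.Q46.SL.*`): the Rankin covering argument with holes at the
pattern gives a modulus and a residue class in which everything else near the pattern is covered by the small primes; the sieve is
applied to the vectors of residues in this class, which are equidistributed with a power saving by bounds for exponential sums.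
-/

set_option autoImplicit false

namespace Pool.Agent.Results.MP_3a3367_nt.GapsLogarithmsAndPolynomials

open Finset Polynomial Filter
open Pool.Agent.Q46.SL hiding Almost
open Pool.Agent.Q46.IP (LoneS csS evI sysT adm_pair adm_one lone_tupleS lone_pairS lone_oneS)

/-- `n` is not zero and has at most `R` prime factors (counted with multiplicity), all larger than `z` -/
def Almost (z : ℝ) (R : ℕ) (n : ℤ) : Prop :=
  n ≠ 0 ∧ n.natAbs.primeFactorsList.length ≤ R ∧ ∀ q : ℕ, q.Prime → (q : ℤ) ∣ n → z < q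

/-- Rankin's function `log M log₂ M log₄ M / (log₃ M) ^ 2` (iterated logarithms) -/
noncomputable def rankin (M : ℝ) : ℝ :=
  Real.log M * Real.log (Real.log M) * Real.log (Real.log (Real.log (Real.log M))) /
    (Real.log (Real.log (Real.log M))) ^ 2

/-- `y` and `y + τ` have at most `R` prime factors, all larger than `M ^ κ`, and every other integer `y + i` with
`|i| ≤ κ rankin(M)` has a prime factor `≤ log M` -/
def GapAt (τ : ℤ) (κ M : ℝ) (R : ℕ) (y : ℤ) : Prop :=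
  Almost (M ^ κ) R y ∧ Almost (M ^ κ) R (y + τ) ∧
    ∀ i : ℤ, |(i : ℝ)| ≤ κ * rankin M → i ≠ 0 → i ≠ τ → ∃ q : ℕ, q.Prime ∧ (q : ℝ) ≤ Real.log M ∧ (q : ℤ) ∣ y + i

/-- Every even `τ ≤ κ rankin(p)` is a gap between almost primes `η + x`, `η + x + τ` for an exponent `x` and the values of `s` polynomials at the power, uniformly in `η`. -/
theorem result (K : ℕ) (r s : ℕ) (hr : 1 ≤ r) (ε : ℝ) (hε : 0 < ε) (hε1 : ε ≤ 1) :
    ∃ κ : ℝ, 0 < κ ∧ ∃ R p₀ : ℕ, ∀ p : ℕ, p₀ ≤ p → ∀ [Fact p.Prime], ∀ τ : ℤ, Even τ → |(τ : ℝ)| ≤ κ * rankin p → ∀ η : ℤ, |(η : ℝ)| ≤ (p : ℝ) ^ K → ∀ (g : (ZMod p)ˣ) (f : Fin s → (ZMod p)[X]),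
      (∀ i, (f i).natDegree ≤ r) → (∀ c : Fin s → ZMod p, (∑ i, C (c i) * f i).natDegree = 0 → c = 0) →
      ∀ (A₀ N₀ : ℕ) (A N : Fin s → ℕ), A₀ + N₀ ≤ orderOf g → (∀ i, A i + N i ≤ p) →
      (p : ℝ) ^ ε ≤ N₀ → (∀ i, (p : ℝ) ^ ε ≤ N i) →
      (p : ℝ) ^ ((2 * s + 1) * r + ε) * ((orderOf g : ℕ) : ℝ) ^ (r - 1) ≤ ((N₀ : ℝ) * ∏ i, (N i : ℝ)) ^ (2 * r) →
      ∃ G : Finset ℕ, ((N₀ : ℝ) * (∏ i, (N i : ℝ)) / (p : ℝ) ^ s) * (p : ℝ) ^ (-ε) ≤ G.card ∧
        ∀ x ∈ G, (A₀ ≤ x ∧ x < A₀ + N₀) ∧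
          (∀ i, A i ≤ ((f i).eval ((g : ZMod p) ^ x)).val ∧ ((f i).eval ((g : ZMod p) ^ x)).val < A i + N i) ∧
          GapAt τ κ p R (η + x) ∧ ∀ i, GapAt τ κ p R (η + ((f i).eval ((g : ZMod p) ^ x)).val) := by
  obtain ⟨κ, hκ, cc, hcc, p₀, h⟩ := Pool.Agent.Q46.SL.logs (LoneS 3 K : PE 2 0 2 × ℤ → ℝ → ℝ → ℤ → Prop)
    (fun k' M => M ^ (-(ε / (2 * ((((s + 1) : ℕ) : ℝ) + 1)) * k'))) (fun k' _ => csS 2 2 3 K (ε / (2 * ((((s + 1) : ℕ) : ℝ) + 1))) (by positivity) k') r s hr ε hε hε1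
  obtain ⟨p₁, hp₁8, hp₁, hp₂⟩ := evI hcc hε hκ (s + 1)
  refine ⟨κ, hκ, ⌊((((K + 2) * (2 + 1) : ℕ)) : ℝ) / κ⌋₊, max p₁ p₀, ?_⟩
  intro p hp _ τ hτ hτκ η hη g f hf hind A₀ N₀ A N hA0 hA hN0 hN hP
  have hpr : (p₁ : ℝ) ≤ p := by exact_mod_cast (le_max_left _ _).trans hp
  have hord := ord_le' g
  obtain ⟨G, hG, hG2⟩ := h p ((le_max_right _ _).trans hp) (sysT ![0, τ] (adm_pair hτ), η) g f hf hind A₀ N₀ A N hA0 hA hN0 hN hP
  refine ⟨G, le_trans (hp₁ _ hpr _ (div_nonneg (mul_nonneg (Nat.cast_nonneg _)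
    (prod_nonneg fun _ _ => Nat.cast_nonneg _)) (by positivity))) hG, ?_⟩
  intro x hx
  obtain ⟨a1, a2, a3, a4⟩ := hG2 x hx
  exact ⟨a1, a2, lone_pairS hτ hp₁8 hpr hη (hp₂ _ hpr) hτκ a3 (by exact_mod_cast (by omega : x ≤ p)), fun i =>
    lone_pairS hτ hp₁8 hpr hη (hp₂ _ hpr) hτκ (a4 i) (by exact_mod_cast (ZMod.val_lt _).le)⟩

end Pool.Agent.Results.MP_3a3367_nt.GapsLogarithmsAndPolynomials
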