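import Pool.Agent.Q46.SL.Tools
import Pool.Agent.Q46.SL.Poly

/-!
# Almost primes `η + x` between consecutive odd squares for an integer and the residue of a polynomial

With `η = (2 k - 1) ^ 2` and a prime `p` between `4 k` and `8 k`, all `η + x`, `x < p`, are between `(2 k - 1) ^ 2` and `(2 k +
1) ^ 2`. We find `x` such that `η + x` has at most `R` prime factors, in arbitrary intervals longer than `p ^ (1 / 2 + ε)`, and
simultaneously for the residue `y` of a polynomial.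

Let `p` be a large prime and `f` a polynomial of degree `d ≥ 2`. In every box `[A1, A1 + N1) × [A2, A2 + N2)` with
`N1 N2 ≥ p ^ (3 / 2 + ε)` there are many points of `y ≡ f(x) (mod p)` BOTH of whose coordinates, the argument and the least residue
of the value, have the property. Here the property is: `η + x` has at most `R` prime factors, all larger than `p ^ κ`.

In addition the numbers avoid arbitrary residue classes, at most `m` classes `E q` modulo each prime `q ≤ z`, as long as there is no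
local obstruction; `m = 0` is the case without classes. The exponent `κ`, the number `R` and the constant `cc` do not depend on the
classes.

Design and proof: helper46 (modules `Pool.Agent.Q46.SV.*`, `Pool.Agent.Q46.SL.*`): the vectors of the residues in question are
equidistributed modulo all small integers with a power saving, by bounds for exponential sums; the fundamental lemma of the
sieve is applied to the vectors.
-/

set_option autoImplicit false

namespace Pool.Agent.Results.MP_3a3367_nt.PolynomialResidues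

open Finset Polynomial
open Pool.Agent.Q46.SL hiding Almost

/-- `n` is not zero and has at most `R` prime factors (counted with multiplicity), all larger than `z` -/
def Almost (z : ℝ) (R : ℕ) (n : ℤ) : Prop :=
  n ≠ 0 ∧ n.natAbs.primeFactorsList.length ≤ R ∧ ∀ q : ℕ, q.Prime → (q : ℤ) ∣ n → z < q

/-- `x` is positive, `η + x` has at most `R` prime factors, all larger than `z`, and `x` avoids the classes `E q`, `q ≤ z` -/
def Good (η : ℤ) (z : ℝ) (R : ℕ) (E : ℕ → Finset ℕ) (x : ℤ) : Prop :=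
  0 < x ∧ Almost z R (η + x) ∧ ∀ q : ℕ, q.Prime → (q : ℝ) ≤ z → (x % q).toNat ∉ E q

/-- `E q` has at most `m` elements, and some residue `a` outside `E q` makes the number `η + x` (`a` in the place of `x`) not divisible by `q` -/
def Adm (η : ℤ) (m : ℕ) (E : ℕ → Finset ℕ) : Prop :=
  ∀ q : ℕ, q.Prime → (E q).card ≤ m ∧ ∃ a < q, a ∉ E q ∧ ¬ (q : ℤ) ∣ η + a

/-- the polynomials and the classes -/
noncomputable def sysE (η : ℤ) (m : ℕ) (E : ℕ → Finset ℕ) (hE : Adm η m E) : PE 1 m 1 where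
  f := ![C η + X]
  E := E
  deg := by
    rw [Fin.sum_univ_one]
    simp only [Matrix.cons_val]
    have d0 : (C η + X : ℤ[X]).natDegree ≤ 1 := by compute_degree
    omega
  adm := by
    intro q hq
    obtain ⟨h1, a, ha, haE, h2⟩ := hE q hq
    refine ⟨h1, a, ha, haE, fun j => ?_⟩
    fin_cases j
    · simpa using h2

lemma good_of {η : ℤ} {m B : ℕ} {E : ℕ → Finset ℕ} (hE : Adm η m E) {κ M : ℝ} (hM : (2 : ℝ) ≤ M)
    (hh : |(η : ℝ)| ≤ M ^ B) {x : ℤ} (h : Near (B + 1) (sysE η m E hE) κ M x) (hx : (x : ℝ) ≤ M) :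
    Good η (M ^ κ) ⌊((B + 1 : ℕ) + (1 : ℕ) + 1 : ℝ) / κ⌋₊ E x := by
  obtain ⟨h0, h12⟩ := h
  obtain ⟨h1, h2⟩ := h12 (by
    intro j
    have hB : (1 : ℝ) ≤ M ^ B := one_le_pow₀ (by linarith)
    have hBM : (2 : ℝ) * M ^ B ≤ M ^ (B + 1) := by
      rw [pow_succ]
      nlinarith
    have k0 := hh
    fin_cases j
    · refine cb_mono (cb_add (cb_C η) (cb_X)) ?_
      push_cast
      norm_num
      linarith) hx
  refine ⟨h0, ?_, h2⟩
  · simpa [sysE, Almost, Pool.Agent.Q46.SL.Almost] using h1 0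

/-- `η + x` is almost prime at both coordinates of many points of `y = f(x)`. -/
theorem result (B m : ℕ) (d : ℕ) (hd : 2 ≤ d) (ε : ℝ) (hε : 0 < ε) (hε1 : ε ≤ 1) :
    ∃ κ : ℝ, 0 < κ ∧ ∃ cc : ℝ, 0 < cc ∧ ∃ R p₀ : ℕ, ∀ p : ℕ, p₀ ≤ p → p.Prime → ∀ η : ℤ, |(η : ℝ)| ≤ (p : ℝ) ^ B → ∀ E : ℕ → Finset ℕ, Adm η m E → ∀ f : ℤ[X], f.natDegree = d → ¬ (p : ℤ) ∣ f.leadingCoeff →
      ∀ A1 N1 A2 N2 : ℕ, A1 + N1 ≤ p → A2 + N2 ≤ p → (p : ℝ) ^ (3 / 2 + ε) ≤ (N1 : ℝ) * N2 →
      ∃ G : Finset (ℕ × ℕ), cc * ((N1 : ℝ) * N2 / p) / Real.log p ^ (2 * (m + 1)) ≤ G.card ∧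
        ∀ z ∈ G, (A1 ≤ z.1 ∧ z.1 < A1 + N1) ∧ (A2 ≤ z.2 ∧ z.2 < A2 + N2) ∧ (p : ℤ) ∣ f.eval (z.1 : ℤ) - z.2 ∧
          Good η ((p : ℝ) ^ κ) R E z.1 ∧ Good η ((p : ℝ) ^ κ) R E z.2 := by
  obtain ⟨κ, hκ, cc, hcc, p₀, h⟩ := Pool.Agent.Q46.SL.polynomial (Near (B + 1) : PE 1 m 1 → ℝ → ℝ → ℤ → Prop)
    (lg (m + 1)) (fun r _ => csN 1 m 1 (B + 1) r) d hd ε hε hε1
  refine ⟨κ, hκ, cc, hcc, ⌊((B + 1 : ℕ) + (1 : ℕ) + 1 : ℝ) / κ⌋₊, max 2 p₀, ?_⟩
  intro p hp hpp η t0 E hE f hf hl A1 N1 A2 N2 hA1 hA2 hN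
  have hpr : (2 : ℝ) ≤ p := by exact_mod_cast (le_max_left _ _).trans hp
  obtain ⟨G, hG, hG2⟩ := h p ((le_max_right _ _).trans hp) (sysE η m E hE) hpp f hf hl A1 N1 A2 N2 hA1 hA2 hN
  refine ⟨G, le_trans (cnt le_rfl (by positivity) (log0 p) _ _) hG, ?_⟩
  intro z hz
  obtain ⟨a1, a2, a3, a4, a5⟩ := hG2 z hz
  exact ⟨a1, a2, a3, good_of hE hpr t0 a4 (by exact_mod_cast (by omega : z.1 ≤ p)), good_of hE hpr t0 a5 (by exact_mod_cast (by omega : z.2 ≤ p))⟩

end Pool.Agent.Results.MP_3a3367_nt.PolynomialResidues
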