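import Pool.Agent.Q315.RD2

/-!
# Almost primes at the same distance above consecutive odd squares, with restricted digits

The question asks for a prime in every set `I_k`, the integers strictly between `(2 k - 1) ^ 2` and `(2 k + 1) ^ 2`.
Fix `m ≥ 1`. We look at the same place of the `m` consecutive sets `I_k, ..., I_{k + m - 1}` at the same time: at the
`m` numbers `(2 (k + i) - 1) ^ 2 + j`, `i < m`, where `j` is the common distance from the left ends.

Let `g ≥ 2` be a base and `K` a large number of digits, let `A 0, ..., A (K - 1)` be arbitrary sets of digits of which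
we only assume that they are not too small on average (`Rich`: the number `|A 0| ⋯ |A (K - 1)|` of the `t < g ^ K` with
the digits `A i` is at least `exp (- c K) g ^ K`), and let `[j₀, j₀ + g ^ K)` be an arbitrary interval of distances
`1 ≤ j < 8 k` of this length, which may be an arbitrarily small power of `k` (`k ≤ g ^ (E K)`).

* The number of the `j = j₀ + t` with these `t` for which ALL the `m` numbers (they belong to the sets
  `I_k, ..., I_{k + m - 1}`) have at most `r` prime factors, all larger than `g ^ (K / r)`, is at least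
  `κ V |A 0| ⋯ |A (K - 1)|`, unless there is an obvious obstruction (no last digit `d` in `A 0` for which the `m` numbers
  for `j = j₀ + d` are prime to `g`); if all digits are allowed there is none.
* The number of these `j` for which all `m` numbers are primes is at most `C V |A 0| ⋯ |A (K - 1)|`.

Here `V` is the expected density, the product of `1 - ν (p) / p` over the primes `p ≤ g ^ K`, where `ν (p)` is the number
of the classes `j` modulo `p` for which `p` divides one of the `m` numbers. All constants are independent of `k`, `j₀` and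
of the sets `A i`; the theorem holds for EVERY `k` in the range.

Proof. There is no local obstruction because every odd prime has a quadratic non-residue. The theorem on almost prime
values of polynomials at integers with restricted digits, uniform in the polynomial, is from the starting library
(`Pool.Agent.Y816.PD.uni_fun`), in the form of `Pool.Agent.Q315.RD.forms`.
-/

set_option autoImplicit false

namespace Pool.Agent.Results.MP_3a3367_nt.SameOffsets

open Filter Finset Polynomial
open Pool.Agent.Q315.RD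

/-- The odd square `(2 (k + i) - 1) ^ 2`, the left end of the set `I_{k + i}` of the question; `sq k (i + 1)` is its
right end. -/
def sq (k i : ℕ) : ℕ := (2 * (k + i) - 1) ^ 2

/-- The product of `1 - ν / p` over the primes `p ≤ y`, where `ν` is the number of the residue classes `t` modulo `p`
such that `p` divides one of the numbers `sq k i + t`, `i < m`. -/
noncomputable def V (k m y : ℕ) : ℝ :=
  ∏ p ∈ (Icc 1 y).filter Nat.Prime, (1 - (classes p fun t => ∃ i < m, p ∣ sq k i + t) / (p : ℝ))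

/-- the forms -/
def F (m k j₀ : ℕ) : Fin m → ℕ → ℕ := fun i t => sq k i + (j₀ + t)

lemma sq_lt (k i : ℕ) (hk : 1 ≤ k) : sq k (i + 1) = sq k i + 8 * (k + i) := by
  unfold sq
  obtain ⟨a, ha⟩ : ∃ a, k + i = a + 1 := ⟨k + i - 1, by omega⟩
  have h1 : 2 * (k + (i + 1)) - 1 = 2 * a + 3 := by omega
  have h2 : 2 * (k + i) - 1 = 2 * a + 1 := by omega
  rw [h1, h2, ha]
  ring

lemma density_F (m k j₀ y : ℕ) : density (F m k j₀) y = V k m y := by
  classical
  unfold density V
  apply prod_congr rfl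
  intro p hp
  have hp2 := (mem_filter.1 hp).2
  congr 3
  rw [← classes_shift p j₀ (fun t => ∃ i < m, p ∣ sq k i + t)]
  · unfold classes
    apply congrArg
    ext t
    simp only [mem_filter]
    refine and_congr_right fun _ => ?_
    unfold F
    constructor
    · rintro ⟨i, hi⟩
      exact ⟨i.1, i.2, hi⟩
    · rintro ⟨i, hi, h⟩
      exact ⟨⟨i, hi⟩, h⟩
  · intro n
    have : ∀ i, p ∣ sq k i + (n + p) ↔ p ∣ sq k i + n := by
      intro i
      rw [← add_assoc]
      exact Nat.dvd_add_self_right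
    simp only [this]

/-- every prime has a residue class where none of the forms vanishes -/
lemma adm (m k j₀ p : ℕ) (hk : 1 ≤ k) (hp : p.Prime) : ∃ t : ℕ, ∀ i, ¬ p ∣ F m k j₀ i t := by
  have : Fact p.Prime := ⟨hp⟩
  rcases hp.eq_two_or_odd' with h2 | h2
  · subst h2
    refine ⟨j₀, fun i h => ?_⟩
    unfold F sq at h
    have h3 : Odd (2 * (k + (i : ℕ)) - 1) := ⟨k + i - 1, by omega⟩
    have h4 : Odd ((2 * (k + (i : ℕ)) - 1) ^ 2 + (j₀ + j₀)) := (h3.pow).add_even ⟨j₀, rfl⟩
    exact (Nat.not_even_iff_odd.2 h4) (even_iff_two_dvd.2 h)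
  · have hF : ringChar (ZMod p) ≠ 2 := by
      rw [ZMod.ringChar_zmod_n]
      rintro rfl
      exact (Nat.not_odd_iff_even.2 even_two) h2
    obtain ⟨q, hq⟩ := FiniteField.exists_nonsquare hF
    refine ⟨(-q - (j₀ : ZMod p)).val, fun i h => hq ?_⟩
    have h3 : ((F m k j₀ i (-q - (j₀ : ZMod p)).val : ℕ) : ZMod p) = 0 :=
      (ZMod.natCast_eq_zero_iff _ _).2 h
    unfold F sq at h3
    push_cast at h3
    rw [ZMod.natCast_zmod_val] at h3
    refine ⟨((2 * (k + (i : ℕ)) - 1 : ℕ) : ZMod p), ?_⟩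
    linear_combination -h3

lemma F_le (m k j₀ E g K : ℕ) (hk : 1 ≤ k) (hkE : k ≤ g ^ (E * K)) (hj : j₀ + g ^ K ≤ 8 * k) (hm : m ≤ g ^ K)
    (h48 : 48 ≤ g ^ K) (hg : 1 ≤ g) (i : Fin m) (t : ℕ) (ht : t < g ^ K) :
    F m k j₀ i t ≤ g ^ ((2 * E + 3) * K) := by
  unfold F sq
  have hi := i.2
  set G : ℕ := g ^ ((E + 1) * K) with hG
  have h1 : g ^ (E * K) ≤ G := Nat.pow_le_pow_right hg (by nlinarith)
  have h2 : g ^ K ≤ G := Nat.pow_le_pow_right hg (by nlinarith)
  have h3 : k + i ≤ 2 * G := by omega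
  have h4 : 2 * (k + (i : ℕ)) - 1 ≤ 4 * G := by omega
  have h5 : (2 * (k + (i : ℕ)) - 1) ^ 2 ≤ (4 * G) ^ 2 := Nat.pow_le_pow_left h4 2
  have hG1 : 1 ≤ G := Nat.one_le_pow _ _ (by omega)
  have h6 : j₀ + t ≤ 8 * G := by omega
  calc (2 * (k + (i : ℕ)) - 1) ^ 2 + (j₀ + t) ≤ (4 * G) ^ 2 + 8 * G := Nat.add_le_add h5 h6
    _ ≤ G ^ 2 * 48 := by nlinarith
    _ ≤ G ^ 2 * g ^ K := Nat.mul_le_mul_left _ h48
    _ = g ^ ((2 * E + 3) * K) := by
      rw [hG, ← pow_mul, ← pow_add]
      congr 1
      ring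

/-- **Almost primes at the same distance above `m` consecutive odd squares, for distances with restricted digits.** -/
theorem result (m E : ℕ) (hm : 1 ≤ m) :
    ∃ c : ℝ, 0 < c ∧ ∃ r₀ : ℕ, 2 ≤ r₀ ∧ ∀ r : ℕ, r₀ ≤ r → ∀ g : ℕ, 2 ≤ g → ∃ κ C : ℝ, 0 < κ ∧ 0 < C ∧
      ∀ᶠ K : ℕ in atTop, ∀ k j₀ : ℕ, 1 ≤ k → k ≤ g ^ (E * K) → 1 ≤ j₀ → j₀ + g ^ K ≤ 8 * k →
        ∀ A : ℕ → Finset ℕ, Rich c g K A →
        ((∃ d ∈ A 0, ∀ i < m, (sq k i + (j₀ + d)).Coprime g) →
          κ * V k m (g ^ K) * choices K A ≤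
            count g K A fun t => ∀ i < m, sq k i + (j₀ + t) ∈ Ioo (sq k i) (sq k (i + 1)) ∧
              AlmostPrime (g ^ K) r (sq k i + (j₀ + t))) ∧
        (count g K A (fun t => ∀ i < m, (sq k i + (j₀ + t)).Prime) : ℝ) ≤ C * V k m (g ^ K) * choices K A := by
  obtain ⟨c, hc, r₀, hr₀, h⟩ := forms m (m * (2 * E + 3)) hm
  refine ⟨c, hc, r₀, hr₀, fun r hr g hg => ?_⟩
  obtain ⟨κ, C, hκ, hC, h1⟩ := h r hr g hg
  refine ⟨κ, C, hκ, hC, ?_⟩
  have hT : Tendsto (fun K : ℕ => g ^ K) atTop atTop := tendsto_pow_atTop_atTop_of_one_lt (show 1 < g by omega)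
  filter_upwards [h1, hT.eventually_ge_atTop 48, hT.eventually_ge_atTop m] with K hK h48 hmK
  intro k j₀ hk hkE hj₀ hj A hA
  obtain ⟨hlow, hup⟩ := hK m (F m k j₀)
    ⟨∏ i : Fin m, (X + Polynomial.C ((sq k i + j₀ : ℕ) : ℤ)), by
      refine (natDegree_prod_le _ _).trans ?_
      calc ∑ i : Fin m, (X + Polynomial.C ((sq k i + j₀ : ℕ) : ℤ)).natDegree ≤ ∑ i : Fin m, 1 := by
            refine sum_le_sum fun i _ => ?_
            rw [natDegree_X_add_C]
        _ = m := by simp, fun t => by
      rw [eval_prod]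
      refine prod_congr rfl fun i _ => ?_
      simp only [eval_add, eval_X, eval_C, F]
      push_cast
      ring⟩
    (fun p hp => adm m k j₀ p hk hp)
    (fun t _ i => by unfold F; omega)
    (fun t ht => by
      calc ∏ i, F m k j₀ i t ≤ ∏ _i : Fin m, g ^ ((2 * E + 3) * K) :=
            prod_le_prod' fun i _ => F_le m k j₀ E g K hk hkE hj hmK h48 (by omega) i t ht
        _ = g ^ (m * (2 * E + 3) * K) := by
          rw [prod_const, card_univ, Fintype.card_fin, ← pow_mul]
          congr 1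
          ring) A hA
  rw [density_F] at hlow hup
  constructor
  · rintro ⟨d, hd, hd1⟩
    refine (hlow ⟨d, hd, fun i => hd1 i i.2⟩).trans (Nat.cast_le.2 (count_mono ?_))
    intro t ht ha i hi
    refine ⟨mem_Ioo.2 ⟨by omega, ?_⟩, ha ⟨i, hi⟩⟩
    rw [sq_lt k i hk]
    omega
  · refine le_trans (Nat.cast_le.2 (count_mono ?_)) hup
    intro t ht ha i
    exact ha i i.2

end Pool.Agent.Results.MP_3a3367_nt.SameOffsets
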